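import Pool.Agent.TH275.QC.EquivQ

/-!
# The decision form of the bit-fixing problem

Fix `0 < ε ≤ 1/5`. The bit-fixing statement (the frozen statement S14737) holds if and only if for
every quantum algorithm with `T ≥ 1` queries and acceptance probability `p` one can fix at most
`C * T ^ C` bits so that afterwards the mean of `p` is at least `ε` away from `1/2`, or the mean of
`p (1 - p)` is at least `ε`. So it is enough to treat algorithms that decide almost every input with
small error and remain balanced under all small restrictions.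
-/

set_option autoImplicit false

namespace Pool.Agent.Results.MP_58d537_lc.DecisionForm

variable {N : ℕ}

/-- The uniform mean. -/
noncomputable def mean (g : (Fin N → Bool) → ℝ) : ℝ := (∑ x : Fin N → Bool, g x) / 2 ^ N

/-- `g` after fixing the bits in `S` as in `a`. -/
def restrict (S : Finset (Fin N)) (a : Fin N → Bool) (g : (Fin N → Bool) → ℝ) :
    (Fin N → Bool) → ℝ :=
  fun x => g (fun i => if i ∈ S then a i else x i)

/-- `p` is the acceptance probability of an algorithm with `T` queries (as in S14737). -/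
def IsAcceptance (N T : ℕ) (p : (Fin N → Bool) → ℝ) : Prop :=
  ∃ (m : ℕ) (U : Fin (T + 1) → Matrix.unitaryGroup (Option (Fin N) × Fin m) ℂ)
    (s₀ : Option (Fin N) × Fin m) (Acc : Finset (Option (Fin N) × Fin m)),
    ∀ x : Fin N → Bool,
      p x = ∑ s ∈ Acc,
        ‖(((List.ofFn (fun k : Fin T =>
            (U k.succ).1 *
              Matrix.diagonal (fun q : Option (Fin N) × Fin m =>
                Option.elim q.1 (1 : ℂ) (fun i => if x i then -1 else 1)))).reverse.prod
            * (U 0).1) s s₀)‖ ^ 2

/-- The bit-fixing statement S14737. -/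
def BitFixing : Prop :=
    ∃ C : ℝ, 0 < C ∧ ∃ k : ℕ,
      ∀ (N T m : ℕ)
        (U : Fin (T + 1) → Matrix.unitaryGroup (Option (Fin N) × Fin m) ℂ)
        (s₀ : Option (Fin N) × Fin m)
        (Acc : Finset (Option (Fin N) × Fin m))
        (p : (Fin N → Bool) → ℝ),
        (∀ x : Fin N → Bool,
          p x = ∑ s ∈ Acc,
            ‖(((List.ofFn (fun k : Fin T =>
                (U k.succ).1 *
                  Matrix.diagonal (fun q : Option (Fin N) × Fin m =>
                    Option.elim q.1 (1 : ℂ) (fun i => if x i then -1 else 1)))).reverse.prod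
                * (U 0).1) s s₀)‖ ^ 2) →
        ∀ E Var : ℝ,
          E = (∑ x : Fin N → Bool, p x) / 2 ^ N →
          Var = (∑ x : Fin N → Bool, (p x - E) ^ 2) / 2 ^ N →
          0 < Var →
          ∃ (S : Finset (Fin N)) (a : Fin N → Bool),
            (S.card : ℝ) ≤ C * ((T : ℝ) / Var) ^ k ∧
            (Var / (T : ℝ)) ^ k / C ≤
              |(∑ x ∈ Finset.univ.filter (fun x : Fin N → Bool => ∀ i ∈ S, x i = a i), p x)
                  / ((Finset.univ.filter (fun x : Fin N → Bool => ∀ i ∈ S, x i = a i)).card : ℝ)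
                - E|

/-- Every `T`-query algorithm, `T ≥ 1`, has a restriction fixing at most `C * T ^ C` bits after
which the mean of the acceptance probability `p` is at least `ε` away from `1/2`, or the mean of
`p (1 - p)` is at least `ε`. -/
def DecisionForm (ε : ℝ) : Prop :=
  ∃ C : ℕ, ∀ (N T : ℕ) (p : (Fin N → Bool) → ℝ), IsAcceptance N T p → 1 ≤ T →
    ∃ (S : Finset (Fin N)) (a : Fin N → Bool), (S.card : ℝ) ≤ C * (T:ℝ) ^ C ∧
      (ε ≤ |mean (restrict S a p) - 1 / 2| ∨
        ε ≤ mean (restrict S a (fun x => p x * (1 - p x))))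

open Pool.Agent.TH334.QB Pool.Agent.TH275.QC

theorem bit_iff : BitFixing ↔ BF := by
  constructor
  · rintro ⟨C, hC, k, h⟩
    refine ⟨C, hC, k, ?_⟩
    rintro N T p ⟨m, U, s₀, Acc, hp⟩ E Var hE hVar hV
    exact h N T m U s₀ Acc p hp E Var hE hVar hV
  · rintro ⟨C, hC, k, h⟩
    refine ⟨C, hC, k, ?_⟩
    intro N T m U s₀ Acc p hp E Var hE hVar hV
    exact h N T p ⟨m, U, s₀, Acc, hp⟩ E Var hE hVar hV

theorem form_iff (ε : ℝ) : DecisionForm ε ↔ NBQ ε := Iff.rfl

theorem result (ε : ℝ) (h0 : 0 < ε) (hε : ε ≤ 1 / 5) : BitFixing ↔ DecisionForm ε := by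
  rw [bit_iff, form_iff]
  exact nbq_iff ε h0 hε

end Pool.Agent.Results.MP_58d537_lc.DecisionForm
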