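import Pool.Agent.TH334.PR.Model
import Pool.Agent.TH334.PR.RelF

/-!
# Bit fixing and classical simulation for quantum algorithms with few entangled reads

A quantum query algorithm with `T` queries (`state`, `acc` in `Pool.Agent.TH334.NR.Model`; this is
the model of the frozen statement S14737) reads the position `i` at a basis state `(some i, w)`.
The read is a product read (`ProductRead`) if the amplitudes of this basis state for `x i` false and
for `x i` true are proportional, with a real ratio (possibly `0` or `∞`) which does not depend on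
the other bits; every other read is entangled.  First reads and reads of a bit whose value is
recorded in the basis state are product reads.
`FewEntangledReads U s₀ T k` says that every computational path makes at most `k` entangled reads
(there are counters on the basis states).

Let `r` such algorithms be run independently and accept with probability `G y` if
`y 0, ..., y (r - 1)` are their outcomes (for one algorithm take `r = 1` and `G y = y 0`), and let
`C = (1 + 26 T ^ 3) ^ k` (`C = 1` if `k = 0`).  Then the bit-fixing statement holds with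
`2048 C r ^ 3 T ^ 9 / Var ^ 2` fixed bits, which move the acceptance probability by `√(Var / 2)`,
and a deterministic classical algorithm (a decision tree `DTree`, with `depth` the largest number of
queries) which makes at most `768 C r ^ 3 T ^ 9 / (ε δ) ^ 2` queries approximates the acceptance
probability within `ε` on all but a fraction `δ` of the oracles.

The dependence on the fraction of exceptional oracles can be made polylogarithmic: for `J, g ≥ 1`
the acceptance probability of each of the algorithms is approximated within `1 / J` on all but a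
fraction `4 * 2 ^ (- g)` of the oracles by a decision tree of depth at most
`2 ^ 23 * (1 + 208 J g T ^ 3) ^ k * T ^ 9 * (J g) ^ 6`.
-/

set_option autoImplicit false

namespace Pool.Agent.Results.MP_58d537_lc.FewEntangledReads

open Pool.Agent.TH334.NR Pool.Agent.TH334.PR Pool.Agent.H572R2

theorem result (N T m r k : ℕ)
    (U : Fin r → ℕ → Matrix.unitaryGroup (Option (Fin N) × Fin m) ℂ)
    (s₀ : Fin r → Option (Fin N) × Fin m) (Acc : Fin r → Finset (Option (Fin N) × Fin m))
    (hU : ∀ κ, FewEntangledReads (U κ) (s₀ κ) T k)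
    (G : (Fin r → Bool) → ℝ) (hG0 : ∀ y, 0 ≤ G y) (hG1 : ∀ y, G y ≤ 1)
    (p : (Fin N → Bool) → ℝ)
    (hp : ∀ x, p x = expect G (fun κ => acc (U κ) (s₀ κ) (Acc κ) T x))
    (E Var : ℝ) (hE : E = (∑ x : Fin N → Bool, p x) / 2 ^ N)
    (hVar : Var = (∑ x : Fin N → Bool, (p x - E) ^ 2) / 2 ^ N) :
    -- bit fixing
    (0 < Var → ∃ (S : Finset (Fin N)) (a : Fin N → Bool),
      (S.card : ℝ) ≤ 2048 * (1 + 26 * (T : ℝ) ^ 3) ^ k * (r : ℝ) ^ 3 * (T : ℝ) ^ 9 / Var ^ 2 ∧
      Real.sqrt (Var / 2) ≤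
        |(∑ x ∈ Finset.univ.filter (fun x : Fin N → Bool => ∀ i ∈ S, x i = a i), p x)
            / ((Finset.univ.filter (fun x : Fin N → Bool => ∀ i ∈ S, x i = a i)).card : ℝ)
          - E|) ∧
    -- classical simulation
    (∀ ε δ : ℝ, 0 < ε → ε ≤ 1 → 0 < δ → δ ≤ 1 → ∃ D : DTree N,
      (D.depth : ℝ) ≤ 768 * (1 + 26 * (T : ℝ) ^ 3) ^ k * (r : ℝ) ^ 3 * (T : ℝ) ^ 9 / (ε * δ) ^ 2 ∧
      ((Finset.univ.filter (fun x : Fin N → Bool => ε < |p x - D.eval x|)).card : ℝ)
        ≤ δ * 2 ^ N) ∧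
    -- simulation with an exponentially small fraction of exceptional oracles
    (∀ (κ : Fin r) (J g : ℕ), 1 ≤ J → 1 ≤ g → 1 ≤ T → ∃ D : DTree N,
      (D.depth : ℝ) ≤ 2 ^ 23 * (1 + 208 * J * g * (T : ℝ) ^ 3) ^ k * (T : ℝ) ^ 9 * (J * g) ^ 6 ∧
      ((Finset.univ.filter (fun x : Fin N → Bool =>
          1 / (J : ℝ) < |acc (U κ) (s₀ κ) (Acc κ) T x - D.eval x|)).card : ℝ)
        ≤ 4 * (1 / 2) ^ g * 2 ^ N) := by
  have hL : ∀ x y, |p x - p y| ≤ 1 * ∑ κ, |(toAlg (U κ) (s₀ κ)).ap T (Acc κ) x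
      - (toAlg (U κ) (s₀ κ)).ap T (Acc κ) y| := by
    intro x y
    rw [hp, hp, expect_eq, expect_eq, one_mul]
    simp_rw [toAlg_ap]
    exact pp_lip G hG0 hG1 _ _ (fun κ => acc_nonneg _ _ _ _ _) (fun κ => acc_le_one _ _ _ _ _)
      (fun κ => acc_nonneg _ _ _ _ _) (fun κ => acc_le_one _ _ _ _ _)
  have hA : ∀ κ, LightN (toAlg (U κ) (s₀ κ)) T ((1 + 26 * (T : ℝ) ^ 3) ^ k) :=
    fun κ => toAlg_light _ _ (hU κ)
  have hEE : EE p = E := hE.symm
  refine ⟨fun hpos => ?_, fun ε δ hε hε1 hδ hδ1 => ?_, fun κ J g hJ hg hT => ?_⟩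
  · have hp0 : ∀ x, 0 ≤ p x := by
      intro x
      rw [hp, expect_eq]
      exact pp_nonneg G hG0 _ (fun κ => acc_nonneg _ _ _ _ _) (fun κ => acc_le_one _ _ _ _ _)
    have hp1 : ∀ x, p x ≤ 1 := by
      intro x
      rw [hp, expect_eq]
      exact pp_le_one G hG1 _ (fun κ => acc_nonneg _ _ _ _ _) (fun κ => acc_le_one _ _ _ _ _)
    obtain ⟨S, a, h1, h2⟩ := fam_fixC (fun κ => toAlg (U κ) (s₀ κ)) Acc
      ((1 + 26 * (T : ℝ) ^ 3) ^ k) (one_le_C T k) hA p hp0 hp1 1 one_pos hL
      Var (by rw [hEE]; exact hVar) hpos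
    refine ⟨S, a, h1.trans (le_of_eq (by ring)), ?_⟩
    rw [hEE, ModelR.Ex_eq] at h2
    rw [← Real.sqrt_sq_eq_abs]
    exact Real.sqrt_le_sqrt h2
  · obtain ⟨D, h1, h2⟩ := fam_simC (fun κ => toAlg (U κ) (s₀ κ)) Acc
      ((1 + 26 * (T : ℝ) ^ 3) ^ k) (one_le_C T k) hA p 1 le_rfl hL ε δ hε hε1
      hδ hδ1
    refine ⟨D, h1.trans (le_of_eq ?_), h2⟩
    rw [mul_pow ε δ]
    ring
  · obtain ⟨c, X, h1⟩ := toAlg_KRs (U κ) (s₀ κ) (hU κ)
    obtain ⟨D, h2, h3⟩ := rel_final h1 (Acc κ) J g hJ hg hT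
    refine ⟨D, h2, ?_⟩
    have h4 : EE (fun x => ii (1 / (J : ℝ)) ((toAlg (U κ) (s₀ κ)).ap T (Acc κ) x - D.eval x))
        = ((Finset.univ.filter (fun x : Fin N → Bool =>
          1 / (J : ℝ) < |acc (U κ) (s₀ κ) (Acc κ) T x - D.eval x|)).card : ℝ) / 2 ^ N := by
      unfold EE ii
      simp_rw [toAlg_ap]
      rw [Finset.card_filter]
      push_cast
      rfl
    rw [h4, div_le_iff₀ (by positivity)] at h3
    exact h3

end Pool.Agent.Results.MP_58d537_lc.FewEntangledReads
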