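import Pool.Agent.TH275.AL.Quantum

/-!
# Bit fixing for quantum algorithms that evaluate polynomials of weighted sums

The algorithm is the one of the frozen statement S14737.  Its acceptance probability is assumed to
be of the form `p x = ∑ s, J s x * Q s x`.  Here `J s` depends on at most `k` bits and
`∑ s, |J s x| ≤ Λ`; `|Q s| ≤ 1`, and `Q s` is, in each of `r` blocks of bits, a polynomial of degree
at most `d` of a weighted sum `∑ a s j * x j` with arbitrary real weights.  (Example: a classical
decision tree of depth `k` is followed by weighted quantum counting, with weights depending on the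
leaf: then `Λ = r = 1` and `d ≤ 2 T`.)  Then fixing at most
`128 T (24 k T √Λ + 1148 r d^(5/2) Λ)² / Var²` bits moves the acceptance probability by at least
`√(Var / 2)`.
-/

set_option autoImplicit false

namespace Pool.Agent.Results.MP_58d537_lc.LinearFormMixture

open Polynomial

theorem result {κ σ : Type*} [Fintype κ] [DecidableEq κ] [Fintype σ] :
    -- the algorithm
    ∀ (N T m : ℕ)
      (U : Fin (T + 1) → Matrix.unitaryGroup (Option (Fin N) × Fin m) ℂ)
      (s₀ : Option (Fin N) × Fin m)
      (Acc : Finset (Option (Fin N) × Fin m))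
      (p : (Fin N → Bool) → ℝ),
      (∀ x : Fin N → Bool,
        p x = ∑ s ∈ Acc,
          ‖(((List.ofFn (fun k : Fin T =>
              (U k.succ).1 *
                Matrix.diagonal (fun q : Option (Fin N) × Fin m =>
                  Option.elim q.1 (1 : ℂ) (fun i => if x i then -1 else 1)))).reverse.prod
              * (U 0).1) s s₀)‖ ^ 2) →
      -- the juntas
      ∀ (k d : ℕ) (Λ : ℝ)
        (C : σ → Finset (Fin N)) (_ : ∀ s, (C s).card ≤ k)
        (J : σ → (Fin N → Bool) → ℝ) (_ : ∀ s x y, (∀ i ∈ C s, x i = y i) → J s x = J s y)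
        (_ : ∀ x, ∑ s, |J s x| ≤ Λ)
        -- the polynomials of weighted sums
        (Q : σ → (Fin N → Bool) → ℝ) (_ : ∀ s x, |Q s x| ≤ 1)
        (blk : σ → Fin N → κ) (a : σ → Fin N → ℝ)
        (_ : ∀ (s : σ) (b : κ) (z : Fin N → Bool), ∃ q : ℝ[X], q.natDegree ≤ d ∧
          ∀ y : Fin N → Bool, (∀ j, blk s j ≠ b → y j = z j) →
          Q s y = q.eval
            (∑ j ∈ Finset.univ.filter (fun j => blk s j = b), if y j then a s j else 0)),
        -- the acceptance probability is a mixture
        (∀ x, p x = ∑ s, J s x * Q s x) →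
        ∀ E Var : ℝ,
          E = (∑ x : Fin N → Bool, p x) / 2 ^ N →
          Var = (∑ x : Fin N → Bool, (p x - E) ^ 2) / 2 ^ N →
          0 < Var →
          ∃ (S : Finset (Fin N)) (c : Fin N → Bool),
            (S.card : ℝ) ≤ 128 * T * (24 * k * T * Real.sqrt Λ
              + 1148 * Fintype.card κ * ((d : ℝ) ^ 2 * Real.sqrt d) * Λ) ^ 2 / Var ^ 2 ∧
            Real.sqrt (Var / 2) ≤
              |(∑ x ∈ Finset.univ.filter (fun x : Fin N → Bool => ∀ i ∈ S, x i = c i), p x)
                  / ((Finset.univ.filter (fun x : Fin N → Bool => ∀ i ∈ S, x i = c i)).card : ℝ)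
                - E| := by
  intro N T m U s₀ Acc p hp k d Λ C hC J hJ hΛ Q hQ blk a hpol hmix E Var hE hVar hV
  have hacc : Pool.Agent.TH334.QB.IsAcc N T p := ⟨m, U, s₀, Acc, hp⟩
  have hb : ∀ x, |p x| ≤ 1 := by
    intro x
    obtain ⟨h0, h1⟩ := Pool.Agent.TH334.QB.isAcc_bounds hacc x
    rw [abs_of_nonneg h0]; exact h1
  obtain ⟨S, c, hS, hc⟩ := Pool.Agent.TH275.AL.bool_fix (2 * T) k d Λ p hb
    (Pool.Agent.TH334.QB.isAcc_deg hacc) C hC J hJ hΛ Q hQ blk a hpol hmix E Var hE hVar hV
  refine ⟨S, c, hS.trans (le_of_eq ?_), hc⟩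
  push_cast
  ring

end Pool.Agent.Results.MP_58d537_lc.LinearFormMixture
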