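import Pool.Agent.TH334.QB.Fin

/-!
# Equivalent forms of the bit-fixing problem for quantum query algorithms

The bit-fixing statement (the frozen statement S14737, first item) holds if and only if each of the
following holds for the acceptance probability `p` of every `T`-query algorithm, with one exponent
`C`: some bit has influence at least `(Var / T) ^ C`; fixing at most `(T / Var) ^ C` bits suitably
changes the variance, or creates a level one Fourier weight, a noise stable part (at a fixed noise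
rate `κ`) or an influential bit, of size at least `(Var / T) ^ C`; some product source with
`∑ b_j ^ 2 ≤ (T / Var) ^ C` changes the law of the acceptance probability, or has an influential bit.
-/

set_option autoImplicit false

namespace Pool.Agent.Results.MP_58d537_lc.ProductSources

variable {N : ℕ}

/-- The uniform mean. -/
noncomputable def mean (g : (Fin N → Bool) → ℝ) : ℝ := (∑ x : Fin N → Bool, g x) / 2 ^ N

/-- The variance. -/
noncomputable def variance (g : (Fin N → Bool) → ℝ) : ℝ := mean (fun x => (g x - mean g) ^ 2)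

/-- The influence of the bit `j`. -/
noncomputable def influence (j : Fin N) (g : (Fin N → Bool) → ℝ) : ℝ :=
  mean (fun x => (g x - g (Function.update x j (!x j))) ^ 2)

/-- `g` after fixing the bits in `S` as in `a`. -/
def restrict (S : Finset (Fin N)) (a : Fin N → Bool) (g : (Fin N → Bool) → ℝ) :
    (Fin N → Bool) → ℝ :=
  fun x => g (fun i => if i ∈ S then a i else x i)

/-- The Fourier weight at level one. -/
noncomputable def levelOne (g : (Fin N → Bool) → ℝ) : ℝ :=
  ∑ i, mean (fun x => g x * (-1 : ℝ) ^ (x i).toNat) ^ 2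

/-- The part of the variance that survives noise of rate `κ`. -/
noncomputable def stablePart (κ : ℝ) (g : (Fin N → Bool) → ℝ) : ℝ :=
  ∑ R ∈ Finset.univ.erase (∅ : Finset (Fin N)), (1 - κ) ^ R.card
    * mean (fun x => g x * ∏ i ∈ R, (-1 : ℝ) ^ (x i).toNat) ^ 2

/-- The mean under the product source whose bit `j` is `1` with probability `(1 - b j) / 2`. -/
noncomputable def sourceMean (b : Fin N → ℝ) (g : (Fin N → Bool) → ℝ) : ℝ :=
  mean (fun x => g x * ∏ j, (1 + b j * (-1 : ℝ) ^ (x j).toNat))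

/-- `p` is the acceptance probability of an algorithm with `T` queries (as in S14737). -/
def IsAcceptance (N T : ℕ) (p : (Fin N → Bool) → ℝ) : Prop :=
  ∃ (m : ℕ) (U : Fin (T + 1) → Matrix.unitaryGroup (Option (Fin N) × Fin m) ℂ)
    (s₀ : Option (Fin N) × Fin m) (Acc : Finset (Option (Fin N) × Fin m)),
    ∀ x : Fin N → Bool,
      p x = ∑ s ∈ Acc,
        ‖(((List.ofFn (fun k : Fin T =>
            (U k.succ).1 *
              Matrix.diagonal (fun q : Option (Fin N) × Fin m =>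
                Option.elim q.1 (1 : ℂ) (fun i => if x i then -1 else 1)))).reverse.prod
            * (U 0).1) s s₀)‖ ^ 2

/-- The bit-fixing statement S14737. -/
def BitFixing : Prop :=
    ∃ C : ℝ, 0 < C ∧ ∃ k : ℕ,
      ∀ (N T m : ℕ)
        (U : Fin (T + 1) → Matrix.unitaryGroup (Option (Fin N) × Fin m) ℂ)
        (s₀ : Option (Fin N) × Fin m)
        (Acc : Finset (Option (Fin N) × Fin m))
        (p : (Fin N → Bool) → ℝ),
        (∀ x : Fin N → Bool,
          p x = ∑ s ∈ Acc,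
            ‖(((List.ofFn (fun k : Fin T =>
                (U k.succ).1 *
                  Matrix.diagonal (fun q : Option (Fin N) × Fin m =>
                    Option.elim q.1 (1 : ℂ) (fun i => if x i then -1 else 1)))).reverse.prod
                * (U 0).1) s s₀)‖ ^ 2) →
        ∀ E Var : ℝ,
          E = (∑ x : Fin N → Bool, p x) / 2 ^ N →
          Var = (∑ x : Fin N → Bool, (p x - E) ^ 2) / 2 ^ N →
          0 < Var →
          ∃ (S : Finset (Fin N)) (a : Fin N → Bool),
            (S.card : ℝ) ≤ C * ((T : ℝ) / Var) ^ k ∧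
            (Var / (T : ℝ)) ^ k / C ≤
              |(∑ x ∈ Finset.univ.filter (fun x : Fin N → Bool => ∀ i ∈ S, x i = a i), p x)
                  / ((Finset.univ.filter (fun x : Fin N → Bool => ∀ i ∈ S, x i = a i)).card : ℝ)
                - E|

/-- For one exponent `C`, all acceptance probabilities `p` of `T`-query algorithms with positive
variance satisfy `P N p ((T / Var) ^ C) ((Var / T) ^ C)`. -/
def ForAllAlgorithms (P : ∀ N : ℕ, ((Fin N → Bool) → ℝ) → ℝ → ℝ → Prop) : Prop :=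
  ∃ C : ℕ, ∀ (N T : ℕ) (p : (Fin N → Bool) → ℝ), IsAcceptance N T p → 0 < variance p →
    P N p ((T / variance p) ^ C) ((variance p / T) ^ C)

/-- Some bit has influence at least `β`. -/
def InfluentialBit (N : ℕ) (p : (Fin N → Bool) → ℝ) (_ β : ℝ) : Prop :=
  ∃ j : Fin N, β ≤ influence j p

/-- Fixing at most `α` bits suitably changes the variance by at least `β`. -/
def VarianceMoves (N : ℕ) (p : (Fin N → Bool) → ℝ) (α β : ℝ) : Prop :=
  ∃ (S : Finset (Fin N)) (a : Fin N → Bool), (S.card : ℝ) ≤ α ∧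
    β ≤ |variance (restrict S a p) - variance p|

/-- Fixing at most `α` bits suitably creates a level one weight of at least `β`. -/
def LinearPart (N : ℕ) (p : (Fin N → Bool) → ℝ) (α β : ℝ) : Prop :=
  ∃ (S : Finset (Fin N)) (a : Fin N → Bool), (S.card : ℝ) ≤ α ∧ β ≤ levelOne (restrict S a p)

/-- Fixing at most `α` bits suitably creates a noise stable part of at least `β`. -/
def StableRestriction (κ : ℝ) (N : ℕ) (p : (Fin N → Bool) → ℝ) (α β : ℝ) : Prop :=
  ∃ (S : Finset (Fin N)) (a : Fin N → Bool), (S.card : ℝ) ≤ α ∧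
    β ≤ stablePart κ (restrict S a p)

/-- Fixing at most `α` bits suitably creates a bit of influence at least `β`. -/
def LocalInfluence (N : ℕ) (p : (Fin N → Bool) → ℝ) (α β : ℝ) : Prop :=
  ∃ (S : Finset (Fin N)) (a : Fin N → Bool) (j : Fin N), (S.card : ℝ) ≤ α ∧
    β ≤ influence j (restrict S a p)

/-- Some product source with `∑ b_j ^ 2 ≤ α` changes the mean of some `1`-Lipschitz function of the
acceptance probability by at least `β`. -/
def LawMoves (N : ℕ) (p : (Fin N → Bool) → ℝ) (α β : ℝ) : Prop :=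
  ∃ b : Fin N → ℝ, (∀ j, |b j| ≤ 1) ∧ ∑ j, b j ^ 2 ≤ α ∧
    ∃ q : ℝ → ℝ, (∀ s t : ℝ, |s| ≤ 1 → |t| ≤ 1 → |q s - q t| ≤ |s - t|) ∧
      β ≤ |sourceMean b (fun x => q (p x)) - mean (fun x => q (p x))|

/-- For some product source with `∑ b_j ^ 2 ≤ α` some bit has influence at least `β`. -/
def SourceInfluence (N : ℕ) (p : (Fin N → Bool) → ℝ) (α β : ℝ) : Prop :=
  ∃ b : Fin N → ℝ, (∀ j, |b j| ≤ 1) ∧ ∑ j, b j ^ 2 ≤ α ∧
    ∃ j : Fin N, β ≤ sourceMean b (fun x => (p x - p (Function.update x j (!x j))) ^ 2)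

open Pool.Agent.H572R2 Pool.Agent.H572R4.QA Pool.Agent.TH334.AA Pool.Agent.TH334.QB

theorem mean_eq (g : (Fin N → Bool) → ℝ) : mean g = EE g := rfl

theorem variance_eq (g : (Fin N → Bool) → ℝ) : variance g = var g := by
  unfold variance
  rw [mean_eq, mean_eq]
  exact var_center g

theorem influence_eq (j : Fin N) (f : (Fin N → Bool) → ℝ) : influence j f = 4 * inf1 f j := by
  unfold influence inf1 dd
  rw [mean_eq]
  have : EE (fun x => (f x - f (Function.update x j (!x j))) ^ 2)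
      = EE (fun x => |f x - f (flp j x)| ^ 2) := by
    apply EE_congr; intro x; rw [sq_abs]; rfl
  rw [this]; ring

theorem levelOne_eq (g : (Fin N → Bool) → ℝ) : levelOne g = ∑ i, lev g i ^ 2 := rfl

theorem stablePart_eq (κ : ℝ) (g : (Fin N → Bool) → ℝ) :
    stablePart κ g = Pool.Agent.H889R3.SA.st κ g := by
  unfold stablePart Pool.Agent.H889R3.SA.st
  rw [← Finset.add_sum_erase Finset.univ _ (Finset.mem_univ (∅ : Finset (Fin N)))]
  rw [if_neg (by simp), zero_add]
  refine Finset.sum_congr rfl fun T hT => ?_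
  rw [if_pos (Finset.nonempty_iff_ne_empty.2 (Finset.ne_of_mem_erase hT))]
  congr 1
  unfold Pool.Agent.H889R3.SA.fh
  rw [mean_eq]
  have h1 : EE (fun x => g x * ∏ i ∈ T, sg (x i))
      = (-1) ^ T.card * EE (fun x => g x * ∏ i ∈ T, (-1 : ℝ) ^ (x i).toNat) := by
    rw [← EE_mul]
    apply EE_congr
    intro x
    have : ∏ j ∈ T, sg (x j) = (-1) ^ T.card * ∏ i ∈ T, (-1 : ℝ) ^ (x i).toNat := by
      rw [← Finset.prod_const, ← Finset.prod_mul_distrib]
      apply Finset.prod_congr rfl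
      intro j _
      rw [sg_eq]; ring
    rw [this]; ring
  rw [h1, mul_pow, ← pow_mul, mul_comm T.card 2, pow_mul]
  norm_num

theorem sourceMean_eq (b : Fin N → ℝ) (g : (Fin N → Bool) → ℝ) :
    sourceMean b g = mu (fun j => - b j) g := by
  unfold sourceMean mu
  rw [mean_eq]
  apply EE_congr
  intro x
  congr 1
  apply Finset.prod_congr rfl
  intro j _
  cases x j <;> simp [sg]

theorem acc_iff (N T : ℕ) (p : (Fin N → Bool) → ℝ) : IsAcceptance N T p ↔ IsAcc N T p := Iff.rfl

theorem bit_iff : BitFixing ↔ Q2 CQ := by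
  rw [← bf_iff]
  constructor
  · rintro ⟨C, hC, k, h⟩
    refine ⟨C, hC, k, ?_⟩
    rintro N T p ⟨m, U, s₀, Acc, hp⟩ E Var hE hVar hV
    exact h N T m U s₀ Acc p hp E Var hE hVar hV
  · rintro ⟨C, hC, k, h⟩
    refine ⟨C, hC, k, ?_⟩
    intro N T m U s₀ Acc p hp E Var hE hVar hV
    exact h N T p ⟨m, U, s₀, Acc, hp⟩ E Var hE hVar hV

theorem for_iff (P : ∀ N : ℕ, ((Fin N → Bool) → ℝ) → ℝ → ℝ → Prop) :
    ForAllAlgorithms P ↔ ForQ P := by
  unfold ForAllAlgorithms ForQ
  simp only [variance_eq, acc_iff]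

theorem inf_iff : ForAllAlgorithms InfluentialBit ↔ Q1 CQ := by
  rw [for_iff, ← q1_iff]
  unfold ForQ InfluentialBit
  simp only [influence_eq]

theorem var_iff : ForAllAlgorithms VarianceMoves ↔ Q3 CQ := by
  rw [for_iff, forQ_iff VarianceMoves (fun N p α β => ∃ (S : Finset (Fin N)) (a : Fin N → Bool),
    (S.card : ℝ) ≤ α ∧ β ≤ |var (fun x => p (mix S a x)) - var p|)]
  · exact Iff.rfl
  · rintro N p a b a' b' h1 h0 h2 ⟨S, c, h3, h4⟩
    rw [variance_eq, variance_eq] at h4
    exact ⟨S, c, h3.trans h1, (by linarith : b' ≤ b).trans h4⟩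
  · rintro N p a b a' b' h1 h0 h2 ⟨S, c, h3, h4⟩
    refine ⟨S, c, h3.trans h1, ?_⟩
    rw [variance_eq, variance_eq]
    exact h2.trans h4

theorem lin_iff : ForAllAlgorithms LinearPart ↔ Q4 CQ := by
  rw [for_iff, forQ_iff LinearPart (fun N p α β => ∃ (S : Finset (Fin N)) (a : Fin N → Bool),
    (S.card : ℝ) ≤ α ∧ β ≤ ∑ i, lev (fun x => p (mix S a x)) i ^ 2)]
  · exact Iff.rfl
  · rintro N p a b a' b' h1 h0 h2 ⟨S, c, h3, h4⟩
    exact ⟨S, c, h3.trans h1, (by linarith : b' ≤ b).trans h4⟩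
  · rintro N p a b a' b' h1 h0 h2 ⟨S, c, h3, h4⟩
    exact ⟨S, c, h3.trans h1, h2.trans h4⟩

theorem stable_iff (κ : ℝ) : ForAllAlgorithms (StableRestriction κ) ↔ Q6 CQ κ := by
  rw [for_iff, forQ_iff (StableRestriction κ) (fun N p α β =>
    ∃ (S : Finset (Fin N)) (a : Fin N → Bool),
    (S.card : ℝ) ≤ α ∧ β ≤ Pool.Agent.H889R3.SA.st κ (fun x => p (mix S a x)))]
  · exact Iff.rfl
  · rintro N p a b a' b' h1 h0 h2 ⟨S, c, h3, h4⟩
    rw [stablePart_eq] at h4
    exact ⟨S, c, h3.trans h1, (by linarith : b' ≤ b).trans h4⟩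
  · rintro N p a b a' b' h1 h0 h2 ⟨S, c, h3, h4⟩
    refine ⟨S, c, h3.trans h1, ?_⟩
    rw [stablePart_eq]
    exact h2.trans h4

theorem local_iff : ForAllAlgorithms LocalInfluence ↔ Q7 CQ := by
  rw [for_iff, forQ_iff LocalInfluence (fun N p α β =>
    ∃ (S : Finset (Fin N)) (a : Fin N → Bool) (j : Fin N),
    (S.card : ℝ) ≤ α ∧ β ≤ inf1 (fun x => p (mix S a x)) j)]
  · exact Iff.rfl
  · rintro N p a b a' b' h1 h0 h2 ⟨S, c, j, h3, h4⟩
    rw [influence_eq] at h4
    refine ⟨S, c, j, h3.trans h1, ?_⟩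
    have h5 : b' ≤ inf1 (restrict S c p) j := by linarith
    exact h5
  · rintro N p a b a' b' h1 h0 h2 ⟨S, c, j, h3, h4⟩
    refine ⟨S, c, j, h3.trans h1, ?_⟩
    rw [influence_eq]
    have h5 : b ≤ inf1 (restrict S c p) j := h4
    have h6 : 0 ≤ inf1 (restrict S c p) j := by
      unfold inf1
      have : 0 ≤ EE (fun x => dd (restrict S c p) j x ^ 2) := EE_nonneg fun x => sq_nonneg _
      positivity
    linarith

theorem law_iff : ForAllAlgorithms LawMoves ↔ Q5 CQ := by
  rw [for_iff, forQ_iff LawMoves (fun N p α β =>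
    ∃ b : Fin N → ℝ, (∀ j, |b j| ≤ 1) ∧ ∑ j, b j ^ 2 ≤ α ∧
      ∃ q : ℝ → ℝ, (∀ s t : ℝ, |s| ≤ 1 → |t| ≤ 1 → |q s - q t| ≤ |s - t|) ∧
        β ≤ |mu b (fun x => q (p x)) - EE (fun x => q (p x))|)]
  · exact Iff.rfl
  · rintro N p a b a' b' h1 h0 h2 ⟨c, h3, h4, q, h5, h6⟩
    rw [sourceMean_eq, mean_eq] at h6
    exact ⟨fun j => - c j, fun j => by rw [abs_neg]; exact h3 j, by
      simpa using h4.trans h1, q, h5, (by linarith : b' ≤ b).trans h6⟩
  · rintro N p a b a' b' h1 h0 h2 ⟨c, h3, h4, q, h5, h6⟩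
    refine ⟨fun j => - c j, fun j => by rw [abs_neg]; exact h3 j, by
      simpa using h4.trans h1, q, h5, ?_⟩
    rw [sourceMean_eq, mean_eq]
    simp only [neg_neg]
    exact h2.trans h6

theorem source_iff : ForAllAlgorithms SourceInfluence ↔ Q8 CQ := by
  have e : ∀ (N : ℕ) (p : (Fin N → Bool) → ℝ) (c : Fin N → ℝ) (j : Fin N),
      mu c (fun x => (p x - p (Function.update x j (!x j))) ^ 2)
        = 4 * mu c (fun x => ((p x - p (flp j x)) / 2) ^ 2) := by
    intro N p c j
    rw [← mu_smul]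
    apply mu_congr
    intro x
    show (p x - p (flp j x)) ^ 2 = _
    ring
  rw [for_iff, forQ_iff SourceInfluence (fun N p α β =>
    ∃ b : Fin N → ℝ, (∀ j, |b j| ≤ 1) ∧ ∑ j, b j ^ 2 ≤ α ∧
      ∃ j : Fin N, β ≤ mu b (fun x => ((p x - p (flp j x)) / 2) ^ 2))]
  · exact Iff.rfl
  · rintro N p a b a' b' h1 h0 h2 ⟨c, h3, h4, j, h6⟩
    rw [sourceMean_eq, e] at h6
    exact ⟨fun j => - c j, fun j => by rw [abs_neg]; exact h3 j, by
      simpa using h4.trans h1, j, by linarith⟩
  · rintro N p a b a' b' h1 h0 h2 ⟨c, h3, h4, j, h6⟩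
    refine ⟨fun j => - c j, fun j => by rw [abs_neg]; exact h3 j, by
      simpa using h4.trans h1, j, ?_⟩
    rw [sourceMean_eq]
    simp only [neg_neg]
    rw [e]
    have h7 : b' ≤ mu c (fun x => ((p x - p (flp j x)) / 2) ^ 2) := h2.trans h6
    linarith

theorem result (κ : ℝ) (hκ : 0 < κ) (hκ' : κ ≤ 1 / 2) :
    List.TFAE [BitFixing, ForAllAlgorithms InfluentialBit, ForAllAlgorithms VarianceMoves,
      ForAllAlgorithms LinearPart, ForAllAlgorithms (StableRestriction κ),
      ForAllAlgorithms LocalInfluence, ForAllAlgorithms LawMoves,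
      ForAllAlgorithms SourceInfluence] := by
  rw [bit_iff, inf_iff, var_iff, lin_iff, stable_iff, local_iff, law_iff, source_iff]
  tfae_have 2 → 1 := q1_q2 cq_ok
  tfae_have 2 → 3 := q1_q3 cq_ok
  tfae_have 1 → 4 := q2_q4 cq_ok
  tfae_have 4 → 5 := q4_q6 cq_ok κ hκ'
  tfae_have 5 → 6 := q6_q7 cq_ok κ hκ hκ'
  tfae_have 6 → 8 := q7_q8 cq_ok
  tfae_have 8 → 2 := q8_q1 cq_ok
  tfae_have 4 → 7 := q4_q5 cq_ok
  tfae_have 3 → 7 := q3_q5 cq_ok
  tfae_have 7 → 2 := q5_q1 cq_ok
  tfae_finish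

end Pool.Agent.Results.MP_58d537_lc.ProductSources
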